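import Mathlib

/-!
# Which of the sets `{(a n + b) / (a n + d)}` are sets of topological multiplicative recurrence

For `b ≠ d` the set `S a b d` is a set of topological multiplicative recurrence if and only if `a` divides the
least common multiple of `b` and `d`. For example `S 6 3 2` is one, although `6` divides neither `3` nor `2`.
-/

set_option autoImplicit false

namespace Pool.Agent.Results.MP_369d67_an.LcmCriterion

open Finset

/-- `T` is an action of the multiplicative group of the positive rationals on `X` by continuous maps: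
`T (r s) = T r ∘ T s` (the values `T r` for `r ≤ 0` are irrelevant). -/
structure IsSystem {X : Type} [TopologicalSpace X] (T : ℚ → X → X) : Prop where
  cont : ∀ r, 0 < r → Continuous (T r)
  mul : ∀ r s, 0 < r → 0 < s → ∀ x, T (r * s) x = T r (T s x)

/-- The system is minimal: every orbit is dense. -/
def IsMinimal {X : Type} [TopologicalSpace X] (T : ℚ → X → X) : Prop :=
  ∀ x, Dense {y | ∃ r, 0 < r ∧ y = T r x}

/-- `R` is a set of topological multiplicative recurrence: for every minimal system on a compact metric space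
and every nonempty open `U` there is `r ∈ R` such that `U` meets its preimage under `T r`. -/
def TopRec (R : Set ℚ) : Prop :=
  ∀ (X : Type) [MetricSpace X] [CompactSpace X] (T : ℚ → X → X), IsSystem T → IsMinimal T →
    ∀ U : Set X, IsOpen U → U.Nonempty → ∃ r ∈ R, (U ∩ T r ⁻¹' U).Nonempty

/-- The form of the definition with colourings: in every finite colouring of the positive integers there are
`x`, `y` of the same colour with `x / y ∈ R`. -/
def ColRec (R : Set ℚ) : Prop :=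
  ∀ (k : ℕ) (c : ℕ → Fin k), ∃ x y : ℕ, 0 < x ∧ 0 < y ∧ c x = c y ∧ (x : ℚ) / y ∈ R

/-- The set `{(a n + b) / (a n + d) : n ≥ 1, a n + b > 0, a n + d > 0}`. -/
def S (a : ℕ) (b d : ℤ) : Set ℚ :=
  {q | ∃ n : ℕ, 0 < n ∧ 0 < (a : ℤ) * n + b ∧ 0 < (a : ℤ) * n + d ∧
    q = (((a : ℤ) * n + b : ℤ) : ℚ) / (((a : ℤ) * n + d : ℤ) : ℚ)}

/-! ### Chains -/

/-- The numbers `x i = a₁ ^ i * u i`, `i < r`, increase, the `u i` are coprime to `a₁`, and for `i < j`
the number `x i / (x j - x i)` is a multiple of `a₂` and `x j / (x j - x i)` is a multiple of `a₁`. -/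
def Chain (a₁ a₂ r : ℕ) (u : ℕ → ℕ) : Prop :=
  (∀ i < r, 0 < u i ∧ Nat.Coprime (u i) a₁) ∧
  ∀ i j, i < j → j < r → ∃ δ, 0 < δ ∧ a₁ ^ j * u j = a₁ ^ i * u i + δ ∧
    δ * a₂ ∣ a₁ ^ i * u i ∧ δ * a₁ ∣ a₁ ^ j * u j

theorem chain (a₁ a₂ : ℕ) (h1 : 0 < a₁) (h2 : 0 < a₂) (h : Nat.Coprime a₁ a₂) (r : ℕ) :
    ∃ u, Chain a₁ a₂ r u := by
  induction r with
  | zero => exact ⟨fun _ => 1, fun i hi => absurd hi (Nat.not_lt_zero _), fun i j _ hj => absurd hj (Nat.not_lt_zero _)⟩
  | succ r ih =>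
    obtain ⟨u, hu1, hu2⟩ := ih
    set B := a₂ * ∏ i ∈ range r, u i with hBdef
    have hB : 0 < B := Nat.mul_pos h2 (prod_pos fun i hi => (hu1 i (mem_range.1 hi)).1)
    have hBc : Nat.Coprime B a₁ :=
      Nat.Coprime.mul_left h.symm (Nat.Coprime.prod_left fun i hi => (hu1 i (mem_range.1 hi)).2)
    have ha2B : a₂ ∣ B := dvd_mul_right _ _
    have huB : ∀ i < r, u i ∣ B := fun i hi =>
      (dvd_prod_of_mem u (mem_range.2 hi)).trans (dvd_mul_left _ _)
    set W : ℕ → ℕ := fun i => a₁ ^ (i + 1) + B * (B / u i) with hWdef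
    have hW : ∀ i < r, a₁ ^ (i + 1) * u i + B ^ 2 = u i * W i := by
      intro i hi
      obtain ⟨c, hc⟩ := huB i hi
      have : B / u i = c := by rw [hc, Nat.mul_div_cancel_left _ (hu1 i hi).1]
      simp only [hWdef]
      rw [this]
      calc a₁ ^ (i + 1) * u i + B ^ 2 = a₁ ^ (i + 1) * u i + B * B := by ring
        _ = a₁ ^ (i + 1) * u i + B * (u i * c) := by rw [← hc]
        _ = _ := by ring
    have hWB : ∀ i < r, Nat.Coprime (W i) B := by
      intro i hi
      simp only [hWdef]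
      rw [Nat.coprime_add_mul_left_left]
      exact Nat.Coprime.pow_left _ hBc.symm
    have hWa : ∀ i < r, Nat.Coprime (W i) a₁ := by
      intro i hi
      simp only [hWdef]
      rw [pow_succ, add_comm, Nat.coprime_add_mul_right_left]
      exact Nat.Coprime.mul_left hBc (Nat.Coprime.coprime_dvd_left (Nat.div_dvd_of_dvd (huB i hi)) hBc)
    have hWpos : ∀ i < r, 0 < W i := by
      intro i hi
      simp only [hWdef]
      positivity
    set P := ∏ i ∈ range r, W i with hP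
    set M := a₁ ^ (r + 2) * B ^ 2 with hM
    have hMP : Nat.Coprime M P := by
      apply Nat.Coprime.prod_right
      intro i hi
      rw [mem_range] at hi
      exact Nat.Coprime.mul_left (Nat.Coprime.pow_left _ (hWa i hi).symm) (Nat.Coprime.pow_left _ (hWB i hi).symm)
    have hPpos : 0 < P := prod_pos fun i hi => hWpos i (mem_range.1 hi)
    have hMpos : 0 < M := by positivity
    obtain ⟨k, hk1, hk2⟩ := Nat.chineseRemainder hMP 0 (B ^ 2)
    set K := k + M * P * (B ^ 2 + 1) with hK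
    have hKB : B ^ 2 < K := by
      have : 1 ≤ M * P := Nat.mul_pos hMpos hPpos
      have : B ^ 2 + 1 ≤ M * P * (B ^ 2 + 1) := Nat.le_mul_of_pos_left _ this
      omega
    have hKM : M ∣ K := by
      refine dvd_add (Nat.modEq_zero_iff_dvd.1 hk1) ?_
      rw [mul_assoc]
      exact dvd_mul_right _ _
    have hKP : P ∣ K - B ^ 2 := by
      rw [← Nat.modEq_iff_dvd' hKB.le]
      have : K ≡ k [MOD P] := by
        rw [hK]
        unfold Nat.ModEq
        rw [mul_right_comm]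
        exact Nat.add_mul_mod_self_right _ _ _
      exact (this.trans hk2).symm
    set Y := K - B ^ 2 with hY
    have hYpos : 0 < Y := by omega
    have hKY : K = Y + B ^ 2 := by omega
    have hKa : ∀ j, j ≤ r + 2 → a₁ ^ j ∣ K := fun j hj => (pow_dvd_pow _ hj).trans ((dvd_mul_right _ _).trans hKM)
    have hBK : B ^ 2 ∣ K := (dvd_mul_left _ _).trans hKM
    have ha1K : a₁ ∣ K := by simpa using hKa 1 (by omega)
    have hYc : Nat.Coprime Y a₁ := by
      have h3 : Nat.gcd Y a₁ ∣ B ^ 2 := by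
        have h4 : Nat.gcd Y a₁ ∣ Y + B ^ 2 := hKY ▸ (Nat.gcd_dvd_right Y a₁).trans ha1K
        exact (Nat.dvd_add_right (Nat.gcd_dvd_left Y a₁)).1 h4
      exact Nat.Coprime.eq_one_of_dvd
        (Nat.Coprime.coprime_dvd_left (Nat.gcd_dvd_right Y a₁) (Nat.Coprime.pow_right 2 hBc.symm)) h3
    have hWY : ∀ i < r, W i ∣ Y := fun i hi => (dvd_prod_of_mem W (mem_range.2 hi)).trans hKP
    -- the new chain
    refine ⟨fun j => if j = 0 then Y else K / a₁ ^ j + u (j - 1), ?_, ?_⟩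
    · intro j hj
      rcases Nat.eq_zero_or_pos j with h0 | h0
      · subst h0
        simp only [if_true]
        exact ⟨hYpos, hYc⟩
      · have hj0 : j ≠ 0 := by omega
        simp only [if_neg hj0]
        obtain ⟨h4, h5⟩ := hu1 (j - 1) (by omega)
        refine ⟨Nat.add_pos_right _ h4, ?_⟩
        have h6 : a₁ ∣ K / a₁ ^ j := by
          apply Nat.dvd_div_of_mul_dvd
          rw [← pow_succ]
          exact hKa (j + 1) (by omega)
        obtain ⟨t, ht⟩ := h6
        rw [ht, add_comm, Nat.coprime_add_mul_left_left]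
        exact h5
    · have hval : ∀ j, 0 < j → j < r + 1 →
          a₁ ^ j * (if j = 0 then Y else K / a₁ ^ j + u (j - 1)) = K + a₁ * (a₁ ^ (j - 1) * u (j - 1)) := by
        intro j h0 hj
        rw [if_neg (by omega), mul_add, Nat.mul_div_cancel' (hKa j (by omega)), ← mul_assoc, ← pow_succ',
          Nat.sub_add_cancel h0]
      intro i j hij hj
      rcases Nat.eq_zero_or_pos i with h0 | h0
      · subst h0
        simp only []
        rw [hval j hij hj]
        simp only [if_true, pow_zero, one_mul]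
        have hjr : j - 1 < r := by omega
        have e1 : a₁ * (a₁ ^ (j - 1) * u (j - 1)) + B ^ 2 = u (j - 1) * W (j - 1) := by
          rw [← hW (j - 1) hjr, ← mul_assoc, ← pow_succ', Nat.sub_add_cancel hij]
        have hd : u (j - 1) * W (j - 1) * a₂ ∣ Y := by
          have e2 : u (j - 1) * W (j - 1) * a₂ = (u (j - 1) * a₂) * W (j - 1) := by ring
          rw [e2]
          refine Nat.Coprime.mul_dvd_of_dvd_of_dvd ?_ ?_ (hWY _ hjr)
          · refine Nat.Coprime.mul_left ?_ ?_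
            · exact Nat.Coprime.coprime_dvd_left (huB _ hjr) (hWB _ hjr).symm
            · exact Nat.Coprime.coprime_dvd_left ha2B (hWB _ hjr).symm
          · have h7 : u (j - 1) * a₂ ∣ B ^ 2 := by
              rw [pow_two]
              exact mul_dvd_mul (huB _ hjr) ha2B
            have h8 : u (j - 1) * a₂ ∣ Y + B ^ 2 := hKY ▸ h7.trans hBK
            exact (Nat.dvd_add_left h7).1 h8
        refine ⟨u (j - 1) * W (j - 1), Nat.mul_pos (hu1 _ hjr).1 (hWpos _ hjr), ?_, hd, ?_⟩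
        · rw [← e1, hKY]; ring
        · have hδ : u (j - 1) * W (j - 1) ∣ K + a₁ * (a₁ ^ (j - 1) * u (j - 1)) := by
            have : K + a₁ * (a₁ ^ (j - 1) * u (j - 1)) = Y + u (j - 1) * W (j - 1) := by rw [← e1, hKY]; ring
            rw [this]
            exact dvd_add ((dvd_mul_right _ _).trans hd) (dvd_refl _)
          refine Nat.Coprime.mul_dvd_of_dvd_of_dvd ?_ hδ (dvd_add ha1K (dvd_mul_right _ _))
          exact Nat.Coprime.mul_left (hu1 _ hjr).2 (hWa _ hjr)
      · beta_reduce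
        rw [hval j (by omega) hj, hval i h0 (by omega)]
        obtain ⟨δ, hδ, h4, h5, h6⟩ := hu2 (i - 1) (j - 1) (by omega) (by omega)
        have hui : u (i - 1) ∣ B ^ 2 := (huB _ (by omega)).trans (dvd_pow_self B (by norm_num))
        refine ⟨a₁ * δ, Nat.mul_pos h1 hδ, ?_, ?_, ?_⟩
        · rw [h4]; ring
        · refine dvd_add ?_ ?_
          · have h7 : a₁ * δ * a₂ ∣ a₁ * (a₁ ^ (i - 1) * u (i - 1)) := by
              rw [mul_assoc]
              exact mul_dvd_mul_left _ h5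
            refine h7.trans ?_
            rw [← mul_assoc, ← pow_succ']
            refine dvd_trans ?_ hKM
            exact mul_dvd_mul (pow_dvd_pow _ (by omega)) hui
          · rw [mul_assoc]
            exact mul_dvd_mul_left _ h5
        · refine dvd_add ?_ ?_
          · have h7 : a₁ * δ * a₁ ∣ a₁ * (a₁ ^ (i - 1) * u (i - 1)) * a₁ := by
              rw [mul_assoc, mul_assoc]
              refine mul_dvd_mul_left _ ?_
              exact mul_dvd_mul_right ((dvd_mul_right _ _).trans h5) _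
            refine h7.trans ?_
            have e3 : a₁ * (a₁ ^ (i - 1) * u (i - 1)) * a₁ = a₁ ^ (i - 1 + 2) * u (i - 1) := by ring
            rw [e3]
            refine dvd_trans ?_ hKM
            exact mul_dvd_mul (pow_dvd_pow _ (by omega)) hui
          · rw [mul_assoc]
            exact mul_dvd_mul_left _ h6


/-! ### Recurrence from chains -/

lemma rec_up (R : Set ℚ) (h : ∀ r : ℕ, ∃ x : ℕ → ℕ, (∀ i < r, 0 < x i) ∧
    ∀ i j, i < j → j < r → (x j : ℚ) / x i ∈ R) : TopRec R ∧ ColRec R := by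
  constructor
  · intro X _ _ T hT hmin U hU hne
    have hcov : (Set.univ : Set X) ⊆ ⋃ g : {g : ℚ // 0 < g}, T g.1 ⁻¹' U := by
      intro x _
      obtain ⟨y, hy1, r, hr, hy2⟩ := (hmin x).inter_open_nonempty U hU hne
      rw [Set.mem_iUnion]
      refine ⟨⟨r, hr⟩, ?_⟩
      rw [Set.mem_preimage, ← hy2]
      exact hy1
    obtain ⟨t, ht⟩ := isCompact_univ.elim_finite_subcover (fun g : {g : ℚ // 0 < g} => T g.1 ⁻¹' U)
      (fun g => hU.preimage (hT.cont g.1 g.2)) hcov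
    obtain ⟨x0, -⟩ := hne
    obtain ⟨x, hx1, hx2⟩ := h (t.card + 1)
    have hcol : ∀ i : Fin (t.card + 1), ∃ g : t, T g.1.1 (T (x i : ℚ) x0) ∈ U := by
      intro i
      have := ht (Set.mem_univ (T (x i : ℚ) x0))
      simp only [Set.mem_iUnion] at this
      obtain ⟨g, hg, h2⟩ := this
      exact ⟨⟨g, hg⟩, h2⟩
    choose g hg using hcol
    obtain ⟨i, j, hij, hgij⟩ := Fintype.exists_ne_map_eq_of_card_lt g (by simp)
    have key : ∀ i j : Fin (t.card + 1), i < j → g i = g j → ∃ r ∈ R, (U ∩ T r ⁻¹' U).Nonempty := by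
      intro i j hij hgij
      have hxi : (0 : ℚ) < x i := by exact_mod_cast hx1 i i.2
      have hxj : (0 : ℚ) < x j := by exact_mod_cast hx1 j j.2
      refine ⟨(x j : ℚ) / x i, hx2 i j hij j.2, T (g i).1.1 (T (x i : ℚ) x0), hg i, ?_⟩
      rw [Set.mem_preimage, ← hT.mul _ _ (g i).1.2 hxi, ← hT.mul _ _ (by positivity) (mul_pos (g i).1.2 hxi)]
      have e : (x j : ℚ) / x i * ((g i).1.1 * x i) = (g j).1.1 * x j := by
        rw [hgij]
        field_simp
      rw [e, hT.mul _ _ (g j).1.2 hxj]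
      exact hg j
    rcases lt_or_gt_of_ne hij with hlt | hlt
    · exact key i j hlt hgij
    · exact key j i hlt hgij.symm
  · intro k c
    obtain ⟨x, hx1, hx2⟩ := h (k + 1)
    obtain ⟨i, j, hij, hc⟩ := Fintype.exists_ne_map_eq_of_card_lt (fun i : Fin (k + 1) => c (x i)) (by simp)
    rcases lt_or_gt_of_ne hij with hlt | hlt
    · exact ⟨x j, x i, hx1 j j.2, hx1 i i.2, hc.symm, hx2 i j hlt j.2⟩
    · exact ⟨x i, x j, hx1 i i.2, hx1 j j.2, hc, hx2 j i hlt i.2⟩

lemma rec_down (R : Set ℚ) (h : ∀ r : ℕ, ∃ x : ℕ → ℕ, (∀ i < r, 0 < x i) ∧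
    ∀ i j, i < j → j < r → (x i : ℚ) / x j ∈ R) : TopRec R ∧ ColRec R := by
  apply rec_up
  intro r
  obtain ⟨x, hx1, hx2⟩ := h r
  exact ⟨fun i => x (r - 1 - i), fun i hi => hx1 _ (by omega), fun i j hij hj => hx2 _ _ (by omega) (by omega)⟩

lemma S_inv (a : ℕ) (b d : ℤ) (x y : ℚ) (h : x / y ∈ S a d b) : y / x ∈ S a b d := by
  obtain ⟨n, hn, h1, h2, h3⟩ := h
  refine ⟨n, hn, h2, h1, ?_⟩
  rw [← inv_div, h3, inv_div]

/-- chains in `S a b d` for `b > d` -/
lemma pos_chain (a₁ a₂ : ℕ) (h1 : 0 < a₁) (h2 : 0 < a₂) (h : Nat.Coprime a₁ a₂) (b d : ℤ)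
    (hb : (a₁ : ℤ) ∣ b) (hd : (a₂ : ℤ) ∣ d) (hbd : d < b) (r : ℕ) :
    ∃ x : ℕ → ℕ, (∀ i < r, 0 < x i) ∧ ∀ i j, i < j → j < r → (x j : ℚ) / x i ∈ S (a₁ * a₂) b d := by
  set T := d.natAbs + 1 with hT
  have hc : Nat.Coprime a₁ (a₂ * (1 + a₁ * T)) := by
    refine Nat.Coprime.mul_right h ?_
    rw [Nat.coprime_comm, Nat.coprime_add_mul_left_left]
    exact Nat.coprime_one_left _
  obtain ⟨u, hu1, hu2⟩ := chain a₁ (a₂ * (1 + a₁ * T)) h1 (by positivity) hc r
  refine ⟨fun i => a₁ ^ i * u i, fun i hi => Nat.mul_pos (by positivity) (hu1 i hi).1, ?_⟩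
  intro i j hij hj
  obtain ⟨δ, hδ, e1, ⟨t, ht⟩, h4⟩ := hu2 i j hij hj
  beta_reduce
  have hxi : 0 < a₁ ^ i * u i := Nat.mul_pos (by positivity) (hu1 i (by omega)).1
  have ht0 : 0 < t := by
    rcases Nat.eq_zero_or_pos t with h0 | h0
    · rw [h0, mul_zero] at ht
      omega
    · exact h0
  set m := a₂ * (1 + a₁ * T) * t with hm
  have e2 : a₁ ^ i * u i = δ * m := by rw [ht, hm]; ring
  have e3 : a₁ ^ j * u j = δ * (m + 1) := by rw [e1, e2]; ring
  have h5 : a₁ ∣ m + 1 := by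
    rw [e3] at h4
    exact Nat.dvd_of_mul_dvd_mul_left hδ h4
  have h6 : a₂ ∣ m := by rw [hm, mul_assoc]; exact dvd_mul_right _ _
  have hmT : T + 1 ≤ m := by
    have h7 : T ≤ a₁ * T := Nat.le_mul_of_pos_left _ h1
    calc T + 1 ≤ 1 + a₁ * T := by omega
      _ ≤ a₂ * (1 + a₁ * T) := Nat.le_mul_of_pos_left _ h2
      _ ≤ m := Nat.le_mul_of_pos_right _ ht0
  have hdT : d < m := by
    have : d ≤ d.natAbs := Int.le_natAbs
    omega
  have h9 : ((a₁ * a₂ : ℕ) : ℤ) ∣ m * (b - d) - d := by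
    push_cast
    refine IsCoprime.mul_dvd (Nat.isCoprime_iff_coprime.2 h) ?_ ?_
    · have e4 : (m : ℤ) * (b - d) - d = ((m + 1 : ℕ) : ℤ) * (b - d) - b := by push_cast; ring
      rw [e4]
      exact dvd_sub ((Int.natCast_dvd_natCast.2 h5).mul_right _) hb
    · exact dvd_sub ((Int.natCast_dvd_natCast.2 h6).mul_right _) hd
  obtain ⟨q, hq⟩ := h9
  have hm0 : (0 : ℤ) < m := by exact_mod_cast (by omega : 0 < m)
  have hpos : 0 < (m : ℤ) * (b - d) - d := by nlinarith
  have hq0 : 0 < q := by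
    rw [hq] at hpos
    exact (pos_iff_pos_of_mul_pos hpos).1 (by exact_mod_cast Nat.mul_pos h1 h2)
  have hqn : ((q.toNat : ℕ) : ℤ) = q := Int.toNat_of_nonneg hq0.le
  have e5 : ((a₁ * a₂ : ℕ) : ℤ) * (q.toNat : ℕ) + d = m * (b - d) := by
    rw [hqn, ← hq]; ring
  have e6 : ((a₁ * a₂ : ℕ) : ℤ) * (q.toNat : ℕ) + b = (m + 1) * (b - d) := by
    rw [hqn, ← hq]; ring
  refine ⟨q.toNat, by omega, ?_, ?_, ?_⟩
  · rw [e6]
    exact mul_pos (by linarith) (by linarith)
  · rw [e5]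
    exact mul_pos hm0 (by linarith)
  · rw [e5, e6, e2, e3]
    have hD : ((b : ℚ) - d) ≠ 0 := by
      have : (d : ℚ) < b := by exact_mod_cast hbd
      linarith
    have hδ0 : (δ : ℚ) ≠ 0 := by exact_mod_cast hδ.ne'
    have hm1 : (m : ℚ) ≠ 0 := by exact_mod_cast (by omega : m ≠ 0)
    push_cast
    field_simp

/-- splitting `a` -/
lemma split (a : ℕ) (ha : 0 < a) (b d : ℤ) (h : a ∣ Int.lcm b d) :
    ∃ a₁ a₂ : ℕ, 0 < a₁ ∧ 0 < a₂ ∧ Nat.Coprime a₁ a₂ ∧ a = a₁ * a₂ ∧ (a₁ : ℤ) ∣ b ∧ (a₂ : ℤ) ∣ d := by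
  by_cases hb : b = 0
  · exact ⟨a, 1, ha, one_pos, Nat.coprime_one_right a, (mul_one a).symm, hb ▸ dvd_zero _, by simp⟩
  by_cases hd : d = 0
  · exact ⟨1, a, one_pos, ha, Nat.coprime_one_left a, (one_mul a).symm, by simp, hd ▸ dvd_zero _⟩
  have hb' : b.natAbs ≠ 0 := Int.natAbs_ne_zero.2 hb
  have hd' : d.natAbs ≠ 0 := Int.natAbs_ne_zero.2 hd
  have h1 : a ∣ Nat.lcm b.natAbs d.natAbs := h
  rw [← Nat.factorizationLCMLeft_mul_factorizationLCMRight hb' hd'] at h1
  have hcop := Nat.coprime_factorizationLCMLeft_factorizationLCMRight b.natAbs d.natAbs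
  set L := Nat.factorizationLCMLeft b.natAbs d.natAbs with hL
  set R := Nat.factorizationLCMRight b.natAbs d.natAbs with hR
  refine ⟨Nat.gcd a L, Nat.gcd a R, Nat.gcd_pos_of_pos_left _ ha, Nat.gcd_pos_of_pos_left _ ha, ?_, ?_, ?_, ?_⟩
  · exact Nat.Coprime.coprime_dvd_left (Nat.gcd_dvd_right _ _)
      (Nat.Coprime.coprime_dvd_right (Nat.gcd_dvd_right _ _) hcop)
  · rw [← Nat.Coprime.gcd_mul a hcop, Nat.gcd_eq_left h1]
  · rw [Int.natCast_dvd]
    exact (Nat.gcd_dvd_right _ _).trans (Nat.factorizationLCMLeft_dvd_left _ _)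
  · rw [Int.natCast_dvd]
    exact (Nat.gcd_dvd_right _ _).trans (Nat.factorizationLCMRight_dvd_right _ _)

lemma positive (a : ℕ) (ha : 0 < a) (b d : ℤ) (hbd : b ≠ d) (h : a ∣ Int.lcm b d) :
    TopRec (S a b d) ∧ ColRec (S a b d) := by
  obtain ⟨a₁, a₂, h1, h2, hc, rfl, hb, hd⟩ := split a ha b d h
  rcases lt_or_gt_of_ne hbd with hlt | hlt
  · apply rec_down
    intro r
    obtain ⟨x, hx1, hx2⟩ := pos_chain a₂ a₁ h2 h1 hc.symm d b hd hb hlt r
    refine ⟨x, hx1, fun i j hij hj => ?_⟩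
    rw [mul_comm a₁ a₂]
    exact S_inv _ _ _ _ _ (hx2 i j hij hj)
  · apply rec_up
    intro r
    exact pos_chain a₁ a₂ h1 h2 hc b d hb hd hlt r

/-! ### Obstructions -/

/-- a multiplicative obstruction -/
lemma obstruct (R : Set ℚ) (hR : ∀ q ∈ R, 0 < q) (G : Type) [CommGroup G] [Finite G] (f : ℕ → G)
    (hf : ∀ x y, 0 < x → 0 < y → f (x * y) = f x * f y)
    (hfR : ∀ x y : ℕ, 0 < x → 0 < y → (x : ℚ) / y ∈ R → f x ≠ f y) : ¬ TopRec R ∧ ¬ ColRec R := by
  constructor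
  · intro hrec
    set c : ℚ → G := fun r => f r.num.toNat / f r.den with hc
    have hcm : ∀ r s : ℚ, 0 < r → 0 < s → c (r * s) = c r * c s := by
      intro r s hr hs
      have hrs : 0 < r * s := mul_pos hr hs
      have n1 : 0 < r.num.toNat := by have := Rat.num_pos.2 hr; omega
      have n2 : 0 < s.num.toNat := by have := Rat.num_pos.2 hs; omega
      have n3 : 0 < (r * s).num.toNat := by have := Rat.num_pos.2 hrs; omega
      have e1 : (r * s).num.toNat * (r.den * s.den) = r.num.toNat * s.num.toNat * (r * s).den := by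
        have h1 := Rat.mul_num_den' r s
        have m1 : ((r.num.toNat : ℕ) : ℤ) = r.num := Int.toNat_of_nonneg (Rat.num_pos.2 hr).le
        have m2 : ((s.num.toNat : ℕ) : ℤ) = s.num := Int.toNat_of_nonneg (Rat.num_pos.2 hs).le
        have m3 : (((r * s).num.toNat : ℕ) : ℤ) = (r * s).num := Int.toNat_of_nonneg (Rat.num_pos.2 hrs).le
        zify
        rw [m1, m2, m3]
        linarith
      have e2 := congrArg f e1
      rw [hf _ _ n3 (Nat.mul_pos r.pos s.pos), hf _ _ r.pos s.pos, hf _ _ (Nat.mul_pos n1 n2) (r * s).pos,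
        hf _ _ n1 n2] at e2
      simp only [hc]
      rw [div_mul_div_comm, div_eq_div_iff_mul_eq_mul, e2]
    let X : Type := {g : G // ∃ r : ℚ, 0 < r ∧ c r = g}
    let _ : TopologicalSpace X := ⊥
    have _ : DiscreteTopology X := ⟨rfl⟩
    have _ : Finite X := Subtype.finite
    let _ : MetricSpace X := TopologicalSpace.metrizableSpaceMetric X
    have hc1 : c 1 = 1 := by
      have := hcm 1 1 one_pos one_pos
      rw [mul_one] at this
      exact (left_eq_mul.1 this)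
    let T : ℚ → X → X := fun r x => if h : 0 < r then ⟨c r * x.1, by
      obtain ⟨s, hs, h2⟩ := x.2
      exact ⟨r * s, mul_pos h hs, by rw [hcm r s h hs, h2]⟩⟩ else x
    have hTv : ∀ r, 0 < r → ∀ x, (T r x).1 = c r * x.1 := by
      intro r hr x
      simp only [T, dif_pos hr]
    have hT : IsSystem T := by
      refine ⟨fun r _ => continuous_of_discreteTopology, fun r s hr hs x => ?_⟩
      apply Subtype.ext
      rw [hTv _ (mul_pos hr hs), hTv _ hr, hTv _ hs, hcm r s hr hs, mul_assoc]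
    have hmin : IsMinimal T := by
      intro x
      have : {y | ∃ r, 0 < r ∧ y = T r x} = Set.univ := by
        ext y
        simp only [Set.mem_ofPred_eq, Set.mem_univ, iff_true]
        obtain ⟨s, hs, h2⟩ := x.2
        obtain ⟨t, ht, h3⟩ := y.2
        refine ⟨t / s, div_pos ht hs, ?_⟩
        apply Subtype.ext
        rw [hTv _ (div_pos ht hs), ← h2, ← hcm _ _ (div_pos ht hs) hs, ← h3]
        congr 1
        field_simp
      rw [this]
      exact dense_univ
    obtain ⟨r, hr, y, hy1, hy2⟩ := hrec X T hT hmin {(⟨1, 1, one_pos, hc1⟩ : X)} (isOpen_discrete _)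
      (Set.singleton_nonempty _)
    rw [Set.mem_singleton_iff] at hy1
    rw [Set.mem_preimage, Set.mem_singleton_iff] at hy2
    have hr0 := hR r hr
    have e3 := congrArg Subtype.val hy2
    rw [hTv r hr0, hy1] at e3
    simp only [mul_one] at e3
    have hn0 : 0 < r.num.toNat := by have := Rat.num_pos.2 hr0; omega
    refine hfR r.num.toNat r.den hn0 r.pos ?_ ?_
    · have : ((r.num.toNat : ℕ) : ℚ) = (r.num : ℚ) := by
        have m1 : ((r.num.toNat : ℕ) : ℤ) = r.num := Int.toNat_of_nonneg (Rat.num_pos.2 hr0).le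
        exact_mod_cast congrArg (Int.cast : ℤ → ℚ) m1
      rw [this, Rat.num_div_den]
      exact hr
    · exact div_eq_one.1 e3
  · intro hrec
    have := Fintype.ofFinite G
    obtain ⟨x, y, hx, hy, h1, h2⟩ := hrec (Fintype.card G) (fun x => Fintype.equivFin G (f x))
    exact hfR x y hx hy h2 ((Fintype.equivFin G).injective h1)

/-- the obstruction at the prime `p`: the unit part modulo `p ^ k` and the valuation modulo `m` -/
noncomputable def ob (p k m : ℕ) (hp : p.Prime) (x : ℕ) : (ZMod (p ^ k))ˣ × Multiplicative (ZMod m) :=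
  if h : x ≠ 0 then (ZMod.unitOfCoprime (ordCompl[p] x) ((Nat.coprime_ordCompl hp h).symm.pow_right k),
    Multiplicative.ofAdd ((x.factorization p : ℕ) : ZMod m)) else 1

lemma ob_mul (p k m : ℕ) (hp : p.Prime) (x y : ℕ) (hx : 0 < x) (hy : 0 < y) :
    ob p k m hp (x * y) = ob p k m hp x * ob p k m hp y := by
  unfold ob
  rw [dif_pos (Nat.mul_pos hx hy).ne', dif_pos hx.ne', dif_pos hy.ne']
  apply Prod.ext
  · apply Units.ext
    simp only [Prod.mk_mul_mk, Units.val_mul, ZMod.coe_unitOfCoprime]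
    rw [Nat.ordCompl_mul]
    push_cast
    rfl
  · simp only [Prod.mk_mul_mk]
    rw [← ofAdd_add, Nat.factorization_mul hx.ne' hy.ne']
    simp

lemma cancel {p : ℤ} (hp : Prime p) {s t : ℕ} {u w : ℤ} (hu : ¬ p ∣ u) (hw : ¬ p ∣ w)
    (h : p ^ s * u = p ^ t * w) : s = t ∧ u = w := by
  have key : ∀ (s t : ℕ) (u w : ℤ), ¬ p ∣ u → p ^ s * u = p ^ t * w → t ≤ s := by
    intro s t u w hu h
    by_contra hlt
    push Not at hlt
    obtain ⟨e, rfl⟩ : ∃ e, t = s + (e + 1) := ⟨t - s - 1, by omega⟩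
    rw [pow_add, mul_assoc] at h
    have h2 := mul_left_cancel₀ (pow_ne_zero s hp.ne_zero) h
    exact hu ⟨p ^ e * w, by rw [h2]; ring⟩
  have h1 := key s t u w hu h
  have h2 := key t s w u hw h.symm
  have h3 : s = t := le_antisymm h2 h1
  subst h3
  exact ⟨rfl, mul_left_cancel₀ (pow_ne_zero s hp.ne_zero) h⟩

lemma negative (a : ℕ) (b d : ℤ) (hbd : b ≠ d) (h : ¬ a ∣ Int.lcm b d) :
    ¬ TopRec (S a b d) ∧ ¬ ColRec (S a b d) := by
  have h0 : ∃ p e : ℕ, p.Prime ∧ p ^ e ∣ a ∧ ¬ p ^ e ∣ Int.lcm b d := by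
    by_contra hcon
    push Not at hcon
    exact h ((Nat.dvd_iff_prime_pow_dvd_dvd _ _).2 fun p k hp hk => hcon p k hp hk)
  obtain ⟨p, e, hp, hpa, hpl⟩ := h0
  have hpi : Prime (p : ℤ) := Nat.prime_iff_prime_int.1 hp
  have hpb : ¬ (p : ℤ) ^ e ∣ b := by
    intro hcon
    apply hpl
    have h1 : ((p ^ e : ℕ) : ℤ) ∣ (Int.lcm b d : ℤ) := by
      push_cast
      exact hcon.trans (Int.dvd_lcm_left b d)
    exact Int.natCast_dvd_natCast.1 h1
  have hpd : ¬ (p : ℤ) ^ e ∣ d := by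
    intro hcon
    apply hpl
    have h1 : ((p ^ e : ℕ) : ℤ) ∣ (Int.lcm b d : ℤ) := by
      push_cast
      exact hcon.trans (Int.dvd_lcm_right b d)
    exact Int.natCast_dvd_natCast.1 h1
  have hfac : ∀ z : ℤ, z ≠ 0 → ∃ (s : ℕ) (w : ℤ), z = (p : ℤ) ^ s * w ∧ ¬ (p : ℤ) ∣ w := by
    intro z hz
    have hfin : FiniteMultiplicity (p : ℤ) z := by
      rw [Int.finiteMultiplicity_iff]
      exact ⟨by simpa using hp.ne_one, hz⟩
    obtain ⟨w, h1, h2⟩ := hfin.exists_eq_pow_mul_and_not_dvd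
    exact ⟨_, w, h1, h2⟩
  have hb0 : b ≠ 0 := fun hb => hpb (hb ▸ dvd_zero _)
  have hd0 : d ≠ 0 := fun hd => hpd (hd ▸ dvd_zero _)
  obtain ⟨β, b', hb1, hb2⟩ := hfac b hb0
  obtain ⟨γ, d', hd1, hd2⟩ := hfac d hd0
  obtain ⟨g, w, hg1, hg2⟩ := hfac (b - d) (sub_ne_zero.2 hbd)
  have hβ : β + 1 ≤ e := by
    by_contra hcon
    exact hpb (hb1 ▸ (pow_dvd_pow _ (by omega)).mul_right _)
  have hγ : γ + 1 ≤ e := by
    by_contra hcon
    exact hpd (hd1 ▸ (pow_dvd_pow _ (by omega)).mul_right _)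
  have haz : (p : ℤ) ^ e ∣ (a : ℤ) := by exact_mod_cast Int.natCast_dvd_natCast.2 hpa
  obtain ⟨a', ha'⟩ := haz
  set m : ℕ := β + γ + 1 with hm
  have _ : NeZero (p ^ (g + 1)) := ⟨pow_ne_zero _ hp.ne_zero⟩
  have _ : NeZero m := ⟨by omega⟩
  refine obstruct (S a b d) ?_ ((ZMod (p ^ (g + 1)))ˣ × Multiplicative (ZMod m)) (ob p (g + 1) m hp)
    (ob_mul p (g + 1) m hp) ?_
  · rintro q ⟨n, hn, h1, h2, rfl⟩
    have h1' : (0 : ℚ) < (((a : ℤ) * n + b : ℤ) : ℚ) := by exact_mod_cast h1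
    have h2' : (0 : ℚ) < (((a : ℤ) * n + d : ℤ) : ℚ) := by exact_mod_cast h2
    exact div_pos h1' h2'
  · rintro x y hx hy ⟨n, hn, h1, h2, h3⟩ hxy
    have hyq : (y : ℚ) ≠ 0 := by exact_mod_cast hy.ne'
    have h2' : (((a : ℤ) * n + d : ℤ) : ℚ) ≠ 0 := by exact_mod_cast h2.ne'
    rw [div_eq_div_iff hyq h2'] at h3
    have h4 : (x : ℤ) * ((a : ℤ) * n + d) = ((a : ℤ) * n + b) * y := by exact_mod_cast h3
    -- factorisations
    obtain ⟨A₁, hA1, hA2⟩ : ∃ A₁ : ℤ, (a : ℤ) * n + b = (p : ℤ) ^ β * A₁ ∧ ¬ (p : ℤ) ∣ A₁ := by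
      refine ⟨(p : ℤ) ^ (e - β - 1) * p * a' * n + b', ?_, ?_⟩
      · rw [hb1, ha']
        have : (p : ℤ) ^ e = (p : ℤ) ^ β * ((p : ℤ) ^ (e - β - 1) * p) := by
          rw [← pow_succ, ← pow_add]; congr 1; omega
        rw [this]; ring
      · intro hcon
        apply hb2
        refine (dvd_add_right ?_).1 hcon
        exact ⟨(p : ℤ) ^ (e - β - 1) * a' * n, by ring⟩
    obtain ⟨C₁, hC1, hC2⟩ : ∃ C₁ : ℤ, (a : ℤ) * n + d = (p : ℤ) ^ γ * C₁ ∧ ¬ (p : ℤ) ∣ C₁ := by
      refine ⟨(p : ℤ) ^ (e - γ - 1) * p * a' * n + d', ?_, ?_⟩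
      · rw [hd1, ha']
        have : (p : ℤ) ^ e = (p : ℤ) ^ γ * ((p : ℤ) ^ (e - γ - 1) * p) := by
          rw [← pow_succ, ← pow_add]; congr 1; omega
        rw [this]; ring
      · intro hcon
        apply hd2
        refine (dvd_add_right ?_).1 hcon
        exact ⟨(p : ℤ) ^ (e - γ - 1) * a' * n, by ring⟩
    have hxf : (x : ℤ) = (p : ℤ) ^ (x.factorization p) * ((ordCompl[p] x : ℕ) : ℤ) := by
      exact_mod_cast (Nat.ordProj_mul_ordCompl_eq_self x p).symm
    have hyf : (y : ℤ) = (p : ℤ) ^ (y.factorization p) * ((ordCompl[p] y : ℕ) : ℤ) := by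
      exact_mod_cast (Nat.ordProj_mul_ordCompl_eq_self y p).symm
    have hx' : ¬ (p : ℤ) ∣ ((ordCompl[p] x : ℕ) : ℤ) := by
      rw [Int.natCast_dvd_natCast]
      exact Nat.not_dvd_ordCompl hp hx.ne'
    have hy' : ¬ (p : ℤ) ∣ ((ordCompl[p] y : ℕ) : ℤ) := by
      rw [Int.natCast_dvd_natCast]
      exact Nat.not_dvd_ordCompl hp hy.ne'
    rw [hxf, hyf, hA1, hC1] at h4
    have h5 : (p : ℤ) ^ (x.factorization p + γ) * (((ordCompl[p] x : ℕ) : ℤ) * C₁) =
        (p : ℤ) ^ (y.factorization p + β) * (((ordCompl[p] y : ℕ) : ℤ) * A₁) := by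
      rw [pow_add, pow_add]
      linear_combination h4
    obtain ⟨h6, h7⟩ := cancel hpi (fun hcon => (hpi.dvd_or_dvd hcon).elim hx' hC2)
      (fun hcon => (hpi.dvd_or_dvd hcon).elim hy' hA2) h5
    -- the colours
    unfold ob at hxy
    rw [dif_pos hx.ne', dif_pos hy.ne'] at hxy
    have hxy1 := congrArg (fun z => (z.1 : ZMod (p ^ (g + 1)))) hxy
    have hxy2 := congrArg (fun z => Multiplicative.toAdd z.2) hxy
    simp only [ZMod.coe_unitOfCoprime, toAdd_ofAdd] at hxy1 hxy2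
    rw [ZMod.natCast_eq_natCast_iff] at hxy2
    have h8 : x.factorization p = y.factorization p := by
      rcases le_total (x.factorization p) (y.factorization p) with hle | hle
      · have h9 := (Nat.modEq_iff_dvd' hle).1 hxy2
        have h10 := Nat.eq_zero_of_dvd_of_lt h9 (by omega)
        omega
      · have h9 := (Nat.modEq_iff_dvd' hle).1 hxy2.symm
        have h10 := Nat.eq_zero_of_dvd_of_lt h9 (by omega)
        omega
    have h9 : β = γ := by omega
    subst h9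
    have h10 : A₁ * (p : ℤ) ^ β - C₁ * (p : ℤ) ^ β = (p : ℤ) ^ g * w := by
      rw [← hg1]
      linear_combination hC1 - hA1
    have h11 : ((p ^ (g + 1) : ℕ) : ℤ) ∣ ((ordCompl[p] x : ℕ) : ℤ) - ((ordCompl[p] y : ℕ) : ℤ) := by
      rw [← ZMod.intCast_zmod_eq_zero_iff_dvd]
      push_cast
      rw [sub_eq_zero]
      exact_mod_cast hxy1
    have h12 : ((ordCompl[p] x : ℕ) : ℤ) * C₁ - ((ordCompl[p] y : ℕ) : ℤ) * C₁ =
        ((ordCompl[p] y : ℕ) : ℤ) * (A₁ - C₁) := by
      rw [h7]; ring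
    have h13 : (p : ℤ) ^ (g + 1) ∣ ((ordCompl[p] y : ℕ) : ℤ) * ((p : ℤ) ^ g * w) := by
      rw [← h10]
      have e1 : ((ordCompl[p] y : ℕ) : ℤ) * (A₁ * (p : ℤ) ^ β - C₁ * (p : ℤ) ^ β) =
          (((ordCompl[p] x : ℕ) : ℤ) - ((ordCompl[p] y : ℕ) : ℤ)) * (C₁ * (p : ℤ) ^ β) := by
        linear_combination (-(p : ℤ) ^ β) * h12
      rw [e1]
      refine Dvd.dvd.mul_right ?_ _
      exact_mod_cast h11
    have h14 : (p : ℤ) ∣ ((ordCompl[p] y : ℕ) : ℤ) * w := by
      have e2 : ((ordCompl[p] y : ℕ) : ℤ) * ((p : ℤ) ^ g * w) = (p : ℤ) ^ g * (((ordCompl[p] y : ℕ) : ℤ) * w) := by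
        ring
      rw [e2, pow_succ] at h13
      exact (mul_dvd_mul_iff_left (pow_ne_zero g hpi.ne_zero)).1 h13
    exact (hpi.dvd_or_dvd h14).elim hy' hg2

/-- **The criterion.** For `a ≥ 1` and integers `b ≠ d`, the set `S a b d` is a set of topological
multiplicative recurrence if and only if `a` divides the least common multiple of `b` and `d` (which is `0` if
`b = 0` or `d = 0`). In particular `S 6 3 2 = {(6 n + 3) / (6 n + 2)}` is such a set, although `6` divides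
neither `3` nor `2`. -/
theorem result :
    (∀ (a : ℕ) (b d : ℤ), 0 < a → b ≠ d →
      (TopRec (S a b d) ↔ a ∣ Int.lcm b d) ∧ (ColRec (S a b d) ↔ a ∣ Int.lcm b d)) ∧
    (TopRec (S 6 3 2) ∧ ColRec (S 6 3 2) ∧ ¬ (6 : ℤ) ∣ 3 ∧ ¬ (6 : ℤ) ∣ 2) := by
  constructor
  · intro a b d ha hbd
    by_cases h : a ∣ Int.lcm b d
    · have := positive a ha b d hbd h
      exact ⟨⟨fun _ => h, fun _ => this.1⟩, ⟨fun _ => h, fun _ => this.2⟩⟩
    · have := negative a b d hbd h
      exact ⟨⟨fun h1 => absurd h1 this.1, fun h1 => absurd h1 h⟩, ⟨fun h1 => absurd h1 this.2, fun h1 => absurd h1 h⟩⟩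
  · have := positive 6 (by norm_num) 3 2 (by norm_num) (by decide)
    exact ⟨this.1, this.2, by decide, by decide⟩

end Pool.Agent.Results.MP_369d67_an.LcmCriterion
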